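import Pool.Agent.P8H29.RR.Dig2

/-!
# Project RR, package DIG: trigonometric approximation of the indicator of one digit
-/

set_option autoImplicit false

namespace Pool.Agent.P8H29.RR

open Finset Pool.Agent.P8H18.RR
open Pool.Agent.H807R2.Dav (dd dd_ge dd_neg sum_inv_range sum_inv_range')

/-! ### periods -/

theorem sum_cast {M : ℕ} [NeZero M] (f : ZMod M → ℝ) : ∑ n ∈ range M, f (n : ZMod M) = ∑ x : ZMod M, f x := by
  symm
  refine sum_nbij' (fun y => y.val) (fun v => (v : ZMod M)) (fun y _ => ?_) (fun v _ => mem_univ _) (fun y _ => ?_)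
    (fun v hv => ?_) (fun y _ => ?_)
  · rw [mem_range]
    exact ZMod.val_lt y
  · exact ZMod.natCast_zmod_val y
  · exact ZMod.val_natCast_of_lt (mem_range.1 hv)
  · rw [ZMod.natCast_zmod_val]

theorem sum_period {M : ℕ} [NeZero M] (f : ZMod M → ℝ) (q : ℕ) :
    ∑ n ∈ range (M * q), f (n : ZMod M) = q * ∑ x : ZMod M, f x := by
  induction q with
  | zero => simp
  | succ q ih =>
    rw [Nat.mul_succ, sum_range_add, ih]
    have h1 : ∀ n ∈ range M, f (((M * q + n : ℕ)) : ZMod M) = f (n : ZMod M) := by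
      intro n _
      congr 1
      push_cast
      rw [ZMod.natCast_self, zero_mul, zero_add]
    rw [sum_congr rfl h1, sum_cast]
    push_cast
    ring

theorem dig_FF (i d n : ℕ) : (if dig n i = d then (1 : ℝ) else 0) = FF (10 ^ i * 10) (10 ^ i) d (n : ZMod (10 ^ i * 10)) := by
  unfold FF dig
  rw [ZMod.val_natCast, Nat.mod_mul_right_div_self]

theorem ee_ch {i : ℕ} (h : ℤ) (n : ℕ) : ee ((h : ℝ) * n / 10 ^ (i + 1)) =
    ch (10 ^ i * 10) ((h : ZMod (10 ^ i * 10)) * (n : ZMod (10 ^ i * 10))) := by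
  have h1 : (h : ZMod (10 ^ i * 10)) * (n : ZMod (10 ^ i * 10)) = ((h * (n : ℤ) : ℤ) : ZMod (10 ^ i * 10)) := by
    push_cast
    rfl
  rw [h1, ch_int]
  congr 1
  push_cast
  rw [pow_succ]

/-! ### a bound for the sums of the coefficients -/

theorem log_bound {H : ℕ} (hH : 20 ≤ H) : (1 : ℝ) ≤ Real.log H := by
  have h1 : (20 : ℝ) ≤ H := by exact_mod_cast hH
  rw [Real.le_log_iff_exp_le (by linarith)]
  have := Real.exp_one_lt_d9
  linarith

theorem sum_abs_inv (H : ℕ) : ∑ h ∈ Icc (-(H : ℤ)) H, (1 / (2 * |(h : ℝ)|)) ≤ 1 + Real.log (H + 1) := by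
  have h0 : Icc (-(H : ℤ)) H = (range (H + 1)).image (fun v : ℕ => (v : ℤ)) ∪
      (range (H + 1)).image (fun v : ℕ => -(v : ℤ)) := by
    ext h
    simp only [mem_Icc, mem_union, mem_image, mem_range]
    constructor
    · rintro ⟨h1, h2⟩
      rcases le_total 0 h with h3 | h3
      · exact Or.inl ⟨h.toNat, by omega, by omega⟩
      · exact Or.inr ⟨(-h).toNat, by omega, by omega⟩
    · rintro (⟨v, h1, rfl⟩ | ⟨v, h1, rfl⟩) <;> omega
  have h1 : ∑ h ∈ Icc (-(H : ℤ)) H, (1 / (2 * |(h : ℝ)|)) ≤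
      ∑ v ∈ range (H + 1), (1 / (2 * |((v : ℤ) : ℝ)|)) + ∑ v ∈ range (H + 1), (1 / (2 * |((-(v : ℤ) : ℤ) : ℝ)|)) := by
    rw [h0]
    have e1 := sum_union_inter (s₁ := (range (H + 1)).image (fun v : ℕ => (v : ℤ)))
      (s₂ := (range (H + 1)).image (fun v : ℕ => -(v : ℤ))) (f := fun h : ℤ => 1 / (2 * |(h : ℝ)|))
    rw [sum_image (fun a _ b _ hab => by simpa using hab), sum_image (fun a _ b _ hab => by simpa using hab)] at e1
    rw [← e1]
    have e2 : 0 ≤ ∑ h ∈ (range (H + 1)).image (fun v : ℕ => (v : ℤ)) ∩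
      (range (H + 1)).image (fun v : ℕ => -(v : ℤ)), 1 / (2 * |(h : ℝ)|) := sum_nonneg fun h _ => by positivity
    linarith
  refine h1.trans ?_
  have h2 : ∀ v : ℕ, 1 / (2 * |((v : ℤ) : ℝ)|) = 1 / 2 * (1 / (v : ℝ)) := by
    intro v
    push_cast
    rw [Nat.abs_cast, one_div_mul_one_div]
  have h3 : ∀ v : ℕ, 1 / (2 * |((-(v : ℤ) : ℤ) : ℝ)|) = 1 / 2 * (1 / (v : ℝ)) := by
    intro v
    push_cast
    rw [abs_neg, Nat.abs_cast, one_div_mul_one_div]
  simp only [h2, h3]
  rw [← mul_sum]
  have h4 := sum_inv_range (H + 1)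
  push_cast at h4
  linarith

theorem log_two_bound {H : ℕ} (hH : 20 ≤ H) : 1 / 10 + (1 + Real.log (H + 1)) ≤ 12 * Real.log H := by
  have h1 := log_bound hH
  have h2 : (20 : ℝ) ≤ H := by exact_mod_cast hH
  have h3 : Real.log (H + 1) ≤ Real.log (2 * H) := Real.log_le_log (by positivity) (by linarith)
  rw [Real.log_mul two_ne_zero (by positivity)] at h3
  have h4 := Real.log_two_lt_d9
  linarith

/-! ### the case of small modulus -/

theorem case_small (D i d H : ℕ) (hd : d < 10) (hH : 20 ≤ H) (hM : 10 ^ i * 10 ≤ H) : ∃ c : ℤ → ℂ,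
    c 0 = 1 / 10 ∧ (∀ h : ℤ, (10 : ℤ) ∣ h → h ≠ 0 → c h = 0) ∧
    ∑ h ∈ Icc (-(H : ℤ)) H, ‖c h‖ ≤ 12 * Real.log H ∧
    (∀ n : ℕ, tp c H i n = if dig n i = d then (1 : ℂ) else 0) := by
  set w := 10 ^ i with hw
  set M := w * 10 with hMd
  have hw1 : 1 ≤ w := Nat.one_le_pow _ _ (by norm_num)
  have hM0 : M ≠ 0 := by omega
  have : NeZero M := ⟨hM0⟩
  have hMr := M_pos (M := M)
  have hwr : (0 : ℝ) < w := by exact_mod_cast hw1
  have hwM : (M : ℝ) = w * 10 := by exact_mod_cast hMd
  set c : ℤ → ℂ := fun h => if 0 ≤ h ∧ h < M then AA M w d (h : ZMod M) / M else 0 with hc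
  -- sums
  have hsum : ∀ f : ℤ → ℂ, ∑ h ∈ Icc (-(H : ℤ)) H, (if 0 ≤ h ∧ h < M then f h else 0) = ∑ v ∈ range M, f v := by
    intro f
    rw [← sum_filter]
    refine sum_nbij' (fun h => h.toNat) (fun v => (v : ℤ)) (fun h hh => ?_) (fun v hv => ?_) (fun h hh => ?_)
      (fun v _ => ?_) (fun h hh => ?_)
    · rw [mem_filter] at hh
      rw [mem_range]
      omega
    · rw [mem_range] at hv
      rw [mem_filter, mem_Icc]
      omega
    · rw [mem_filter] at hh
      omega
    · simp
    · rw [mem_filter] at hh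
      congr 1
      omega
  have hsumr : ∀ f : ℤ → ℝ, ∑ h ∈ Icc (-(H : ℤ)) H, (if 0 ≤ h ∧ h < M then f h else 0) = ∑ v ∈ range M, f v := by
    intro f
    rw [← sum_filter]
    refine sum_nbij' (fun h => h.toNat) (fun v => (v : ℤ)) (fun h hh => ?_) (fun v hv => ?_) (fun h hh => ?_)
      (fun v _ => ?_) (fun h hh => ?_)
    · rw [mem_filter] at hh
      rw [mem_range]
      omega
    · rw [mem_range] at hv
      rw [mem_filter, mem_Icc]
      omega
    · rw [mem_filter] at hh
      omega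
    · simp
    · rw [mem_filter] at hh
      congr 1
      omega
  refine ⟨c, ?_, ?_, ?_, ?_⟩
  · rw [hc]
    simp only
    rw [if_pos ⟨le_rfl, by omega⟩, Int.cast_zero, AA_zero hw1 hMd hd]
    have : (M : ℂ) = w * 10 := by exact_mod_cast hMd
    rw [this]
    have hw0 : (w : ℂ) ≠ 0 := by exact_mod_cast (by omega : w ≠ 0)
    field_simp
  · intro h h10 h0
    rw [hc]
    simp only
    split_ifs with hh
    · rw [AA_ten hw1 hMd hd, zero_div]
      · intro hz
        rw [ZMod.intCast_zmod_eq_zero_iff_dvd] at hz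
        have := Int.le_of_dvd (by omega) hz
        omega
      · obtain ⟨k, rfl⟩ := h10
        have : (w : ZMod M) * ((10 * k : ℤ) : ZMod M) = ((M : ℕ) : ZMod M) * k := by
          rw [hMd]
          push_cast
          ring
        rw [this, ZMod.natCast_self, zero_mul]
    · rfl
  · have e1 : ∀ h ∈ Icc (-(H : ℤ)) H, ‖c h‖ ≤ if 0 ≤ h ∧ h < M then
        (if h = 0 then 1 / 10 else 1 / 2 * (1 / (h : ℝ) + 1 / ((M : ℝ) - h))) else 0 := by
      intro h _
      rw [hc]
      simp only
      split_ifs with hh h0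
      · rw [h0, Int.cast_zero, AA_zero hw1 hMd hd]
        rw [norm_div, Complex.norm_natCast, Complex.norm_natCast, hwM]
        field_simp
        exact le_rfl
      · have hne : (h : ZMod M) ≠ 0 := by
          intro hz
          rw [ZMod.intCast_zmod_eq_zero_iff_dvd] at hz
          have := Int.le_of_dvd (by omega) hz
          omega
        have hval : ((h : ZMod M).val : ℝ) = h := by
          have : ((h : ZMod M).val : ℤ) = h := by
            rw [ZMod.val_intCast]
            exact Int.emod_eq_of_lt hh.1 hh.2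
          exact_mod_cast this
        have e2 := norm_AA_val hw1 hMd hd hne
        rw [hval] at e2
        rw [norm_div, Complex.norm_natCast, div_le_iff₀ hMr]
        refine e2.trans (le_of_eq ?_)
        ring
      · rw [norm_zero]
    refine (sum_le_sum e1).trans ?_
    rw [hsumr]
    have e3 : ∀ v ∈ range M, (if ((v : ℕ) : ℤ) = 0 then (1 : ℝ) / 10 else
        1 / 2 * (1 / (((v : ℤ)) : ℝ) + 1 / ((M : ℝ) - ((v : ℤ) : ℝ)))) ≤
        (if v = 0 then (1 : ℝ) / 10 else 0) + 1 / 2 * (1 / (v : ℝ) + 1 / ((M : ℝ) - v)) := by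
      intro v hv
      have hv' : (v : ℝ) < M := by exact_mod_cast mem_range.1 hv
      have hp1 : (0 : ℝ) ≤ 1 / (v : ℝ) := by positivity
      have hp2 : (0 : ℝ) ≤ 1 / ((M : ℝ) - v) := by
        have : (0 : ℝ) < (M : ℝ) - v := by linarith
        positivity
      by_cases h0 : v = 0
      · rw [if_pos (by exact_mod_cast h0), if_pos h0]
        linarith
      · rw [if_neg (by exact_mod_cast h0), if_neg h0, zero_add]
        push_cast
        exact le_rfl
    refine (sum_le_sum e3).trans ?_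
    rw [sum_add_distrib, sum_ite_eq', if_pos (mem_range.2 (by omega)), ← mul_sum, sum_add_distrib]
    have e4 := sum_inv_range M
    have e5 := sum_inv_range' M
    have e6 : Real.log M ≤ Real.log (H + 1) := by
      refine Real.log_le_log hMr ?_
      have : (M : ℝ) ≤ H := by exact_mod_cast hM
      linarith
    have e7 := log_two_bound hH
    linarith
  · intro n
    unfold tp
    have e1 : ∀ h ∈ Icc (-(H : ℤ)) H, c h * ee ((h : ℝ) * n / 10 ^ (i + 1)) =
        if 0 ≤ h ∧ h < M then AA M w d (h : ZMod M) / M * ch M ((h : ZMod M) * (n : ZMod M)) else 0 := by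
      intro h _
      rw [ee_ch, hc]
      simp only
      split_ifs
      · rfl
      · rw [zero_mul]
    rw [sum_congr rfl e1, hsum]
    have e2 : ∑ v ∈ range M, AA M w d (((v : ℕ) : ℤ) : ZMod M) / M * ch M ((((v : ℕ) : ℤ) : ZMod M) * (n : ZMod M)) =
        ∑ y : ZMod M, AA M w d y / M * ch M (y * (n : ZMod M)) := by
      symm
      refine sum_nbij' (fun y => y.val) (fun v => (v : ZMod M)) (fun y _ => ?_) (fun v _ => mem_univ _) (fun y _ => ?_)
        (fun v hv => ?_) (fun y _ => ?_)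
      · rw [mem_range]
        exact ZMod.val_lt y
      · exact ZMod.natCast_zmod_val y
      · exact ZMod.val_natCast_of_lt (mem_range.1 hv)
      · rw [Int.cast_natCast, ZMod.natCast_zmod_val]
    rw [e2]
    have e3 : ∑ y : ZMod M, AA M w d y / M * ch M (y * (n : ZMod M)) =
        ∑ x : ZMod M, (FF M w d x : ℂ) * ((1 / M) * ∑ y : ZMod M, ch M (y * ((n : ZMod M) - x))) := by
      unfold AA
      have e4 : ∀ y : ZMod M, (∑ x : ZMod M, (FF M w d x : ℂ) * ch M (-y * x)) / M * ch M (y * (n : ZMod M)) =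
          ∑ x : ZMod M, (FF M w d x : ℂ) * ((1 / M) * ch M (y * ((n : ZMod M) - x))) := by
        intro y
        rw [sum_div, sum_mul]
        refine sum_congr rfl fun x _ => ?_
        have e5 : ch M (y * ((n : ZMod M) - x)) = ch M (-y * x) * ch M (y * (n : ZMod M)) := by
          rw [← AddChar.map_add_eq_mul]
          congr 1
          ring
        rw [e5]
        ring
      simp only [e4]
      rw [sum_comm]
      refine sum_congr rfl fun x _ => ?_
      rw [mul_sum, mul_sum]
    rw [e3]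
    simp only [sum_ch]
    rw [sum_eq_single (n : ZMod M)]
    · rw [if_pos (sub_self _)]
      have : (M : ℂ) ≠ 0 := by exact_mod_cast hM0
      rw [one_div, inv_mul_cancel₀ this, mul_one]
      have e6 := dig_FF i d n
      have e7 : ((FF M w d (n : ZMod M) : ℝ) : ℂ) = (((if dig n i = d then (1 : ℝ) else 0) : ℝ) : ℂ) := by rw [e6]
      rw [e7]
      split_ifs <;> simp
    · intro x _ hx
      rw [if_neg (fun h => hx (sub_eq_zero.1 h).symm)]
      ring
    · intro h
      exact absurd (mem_univ _) h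

/-! ### the case of large modulus -/

theorem case_large (i d H : ℕ) (hd : d < 10) (hH : 20 ≤ H) (hM : H < 10 ^ i * 10) : ∃ c : ℤ → ℂ,
    c 0 = 1 / 10 ∧ (∀ h : ℤ, (10 : ℤ) ∣ h → h ≠ 0 → c h = 0) ∧
    ∑ h ∈ Icc (-(H : ℤ)) H, ‖c h‖ ≤ 12 * Real.log H ∧
    (∀ n : ℕ, ∃ r : ℝ, 0 ≤ r ∧ r ≤ 1 ∧ tp c H i n = r) ∧
    ∀ q : ℕ, ∑ n ∈ range (10 ^ i * 10 * q), ‖(if dig n i = d then (1 : ℂ) else 0) - tp c H i n‖ ≤
      q * ((10 ^ i * 10 : ℕ) / (H / 2 : ℕ) * (1 + Real.log (10 ^ i * 10 : ℕ))) := by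
  set w := 10 ^ i with hw
  set M := w * 10 with hMd
  have hw1 : 1 ≤ w := Nat.one_le_pow _ _ (by norm_num)
  have hM0 : M ≠ 0 := by omega
  have : NeZero M := ⟨hM0⟩
  have hMr := M_pos (M := M)
  have hwr : (0 : ℝ) < w := by exact_mod_cast hw1
  have hwM : (M : ℝ) = w * 10 := by exact_mod_cast hMd
  set K := H / 2 with hK
  have hK10 : 10 ≤ K := by omega
  have hKM : 2 * K ≤ M := by omega
  have hKr : (0 : ℝ) < K := by exact_mod_cast (by omega : 0 < K)
  set fb : ℤ → Finset (ℕ × ℕ) := fun h => (range K ×ˢ range K).filter (fun p => (p.1 : ℤ) - p.2 = h) with hfb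
  set c : ℤ → ℂ := fun h => ((fb h).card : ℂ) / (K * M) * AA M w d (h : ZMod M) with hc
  -- the cardinality of the fibres
  have hfb0 : (fb 0).card = K := by
    have e1 : fb 0 = (range K).image (fun l => (l, l)) := by
      ext p
      rw [hfb]
      simp only [mem_filter, mem_product, mem_range, mem_image]
      constructor
      · rintro ⟨⟨h1, h2⟩, h3⟩
        exact ⟨p.1, h1, Prod.ext rfl (by simp only; omega)⟩
      · rintro ⟨l, hl, rfl⟩
        simp only
        omega
    rw [e1, card_image_of_injective _ (fun a b hab => (Prod.mk.inj hab).1), card_range]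
  have hfbe : ∀ h : ℤ, (fb h).Nonempty → |h| < K := by
    rintro h ⟨p, hp⟩
    rw [hfb] at hp
    simp only [mem_filter, mem_product, mem_range] at hp
    rw [abs_lt]
    omega
  have hfbc : ∀ h : ℤ, (fb h).card ≤ K := by
    intro h
    rw [← card_range K]
    refine card_le_card_of_injOn (fun p => p.1) (fun p hp => ?_) (fun p hp q hq hpq => ?_)
    · rw [hfb] at hp
      simp only [coe_filter, mem_product, Set.mem_setOf_eq] at hp
      exact hp.1.1
    · rw [hfb] at hp hq
      simp only [coe_filter, mem_product, Set.mem_setOf_eq] at hp hq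
      simp only at hpq
      exact Prod.ext hpq (by omega)
  -- the values
  have htp : ∀ n : ℕ, tp c H i n = ((∑ x : ZMod M, FF M w d x * kr K ((n : ZMod M) - x) : ℝ) : ℂ) := by
    intro n
    unfold tp
    have e1 : ∀ h ∈ Icc (-(H : ℤ)) H, c h * ee ((h : ℝ) * n / 10 ^ (i + 1)) =
        ∑ p ∈ fb h, 1 / ((K : ℂ) * M) * (AA M w d ((((p.1 : ℤ) - p.2 : ℤ)) : ZMod M) *
          ch M ((((p.1 : ℤ) - p.2 : ℤ) : ZMod M) * (n : ZMod M))) := by
      intro h _
      have e2 : ∀ p ∈ fb h, 1 / ((K : ℂ) * M) * (AA M w d ((((p.1 : ℤ) - p.2 : ℤ)) : ZMod M) *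
          ch M ((((p.1 : ℤ) - p.2 : ℤ) : ZMod M) * (n : ZMod M))) =
          1 / ((K : ℂ) * M) * (AA M w d (h : ZMod M) * ch M ((h : ZMod M) * (n : ZMod M))) := by
        intro p hp
        have : (p.1 : ℤ) - p.2 = h := (mem_filter.1 hp).2
        rw [this]
      rw [sum_congr rfl e2, sum_const, ee_ch, hc, nsmul_eq_mul]
      simp only
      ring
    rw [sum_congr rfl e1, sum_fiberwise_of_maps_to]
    · have e3 : ∀ p ∈ range K ×ˢ range K, 1 / ((K : ℂ) * M) * (AA M w d ((((p.1 : ℤ) - p.2 : ℤ)) : ZMod M) *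
          ch M ((((p.1 : ℤ) - p.2 : ℤ) : ZMod M) * (n : ZMod M))) =
          ∑ x : ZMod M, (FF M w d x : ℂ) * (1 / ((K : ℂ) * M) *
            ch M (((n : ZMod M) - x) * ((p.1 : ZMod M) - p.2))) := by
        intro p _
        unfold AA
        rw [sum_mul, mul_sum]
        refine sum_congr rfl fun x _ => ?_
        have e5 : ch M (((n : ZMod M) - x) * ((p.1 : ZMod M) - p.2)) =
            ch M (-((((p.1 : ℤ) - p.2 : ℤ)) : ZMod M) * x) * ch M ((((p.1 : ℤ) - p.2 : ℤ) : ZMod M) * (n : ZMod M)) := by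
          rw [← AddChar.map_add_eq_mul]
          congr 1
          push_cast
          ring
        rw [e5]
        ring
      rw [sum_congr rfl e3, sum_comm, Complex.ofReal_sum]
      refine sum_congr rfl fun x _ => ?_
      rw [← mul_sum, ← mul_sum, ← kr_expand]
      unfold kr
      push_cast
      ring
    · intro p hp
      simp only [mem_product, mem_range] at hp
      rw [mem_Icc]
      omega
  have hF0 : ∀ x : ZMod M, 0 ≤ FF M w d x ∧ FF M w d x ≤ 1 := by
    intro x
    unfold FF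
    split_ifs <;> norm_num
  have hsk : ∀ n : ZMod M, ∑ x : ZMod M, kr K (n - x) = 1 := by
    intro n
    rw [← sum_kr (M := M) (N := K) (by omega) (by omega)]
    exact Fintype.sum_equiv (Equiv.subLeft n) _ _ (fun x => rfl)
  refine ⟨c, ?_, ?_, ?_, ?_, ?_⟩
  · rw [hc]
    simp only
    rw [hfb0, Int.cast_zero, AA_zero hw1 hMd hd]
    have e1 : (M : ℂ) = w * 10 := by exact_mod_cast hMd
    have e2 : (K : ℂ) ≠ 0 := by exact_mod_cast (by omega : K ≠ 0)
    have e3 : (w : ℂ) ≠ 0 := by exact_mod_cast (by omega : w ≠ 0)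
    rw [e1]
    field_simp
  · intro h h10 h0
    rw [hc]
    simp only
    by_cases hne : (fb h).Nonempty
    · have hlt := hfbe h hne
      rw [AA_ten hw1 hMd hd, mul_zero]
      · intro hz
        rw [ZMod.intCast_zmod_eq_zero_iff_dvd] at hz
        have e1 := Int.le_of_dvd (abs_pos.2 h0) ((dvd_abs _ _).2 hz)
        omega
      · obtain ⟨k, rfl⟩ := h10
        have : (w : ZMod M) * ((10 * k : ℤ) : ZMod M) = ((M : ℕ) : ZMod M) * k := by
          rw [hMd]
          push_cast
          ring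
        rw [this, ZMod.natCast_self, zero_mul]
    · rw [not_nonempty_iff_eq_empty] at hne
      rw [hne]
      simp
  · have e1 : ∀ h ∈ Icc (-(H : ℤ)) H, ‖c h‖ ≤ (if h = 0 then 1 / 10 else 0) + 1 / (2 * |(h : ℝ)|) := by
      intro h _
      have hp : 0 ≤ 1 / (2 * |(h : ℝ)|) := by positivity
      rw [hc]
      simp only
      by_cases h0 : h = 0
      · rw [if_pos h0, h0, hfb0, Int.cast_zero, AA_zero hw1 hMd hd, norm_mul, norm_div, norm_mul,
          Complex.norm_natCast, Complex.norm_natCast, Complex.norm_natCast, hwM]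
        have e2 : (K : ℝ) / (K * (w * 10)) * w = 1 / 10 := by
          field_simp
        rw [e2, Int.cast_zero, abs_zero, mul_zero, div_zero, add_zero]
      · rw [if_neg h0, zero_add]
        by_cases hne : (fb h).Nonempty
        · have hlt := hfbe h hne
          have e2 := norm_AA_int hw1 hMd hd h0 (by omega)
          have ha : (0 : ℝ) < |(h : ℝ)| := abs_pos.2 (by exact_mod_cast h0)
          rw [norm_mul, norm_div, norm_mul, Complex.norm_natCast, Complex.norm_natCast, Complex.norm_natCast]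
          have e3 : ((fb h).card : ℝ) ≤ K := by exact_mod_cast hfbc h
          have e4 : ((fb h).card : ℝ) / (K * M) ≤ 1 / M := by
            rw [div_le_div_iff₀ (by positivity) hMr]
            nlinarith
          calc ((fb h).card : ℝ) / (K * M) * ‖AA M w d (h : ZMod M)‖ ≤ 1 / M * (M / (2 * |(h : ℝ)|)) :=
                mul_le_mul e4 e2 (norm_nonneg _) (by positivity)
            _ = _ := by field_simp
        · rw [not_nonempty_iff_eq_empty] at hne
          rw [hne]
          simpa using hp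
    refine (sum_le_sum e1).trans ?_
    rw [sum_add_distrib, sum_ite_eq', if_pos (by rw [mem_Icc]; omega)]
    have e2 := sum_abs_inv H
    have e3 := log_two_bound hH
    linarith
  · intro n
    refine ⟨_, ?_, ?_, htp n⟩
    · exact sum_nonneg fun x _ => mul_nonneg (hF0 x).1 (kr_nonneg _ _)
    · rw [← hsk (n : ZMod M)]
      refine sum_le_sum fun x _ => ?_
      have := kr_nonneg K ((n : ZMod M) - x)
      nlinarith [(hF0 x).2]
  · intro q
    have e1 : ∀ n ∈ range (M * q), ‖(if dig n i = d then (1 : ℂ) else 0) - tp c H i n‖ =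
        |FF M w d (n : ZMod M) - ∑ x : ZMod M, FF M w d x * kr K ((n : ZMod M) - x)| := by
      intro n _
      have e2 : (if dig n i = d then (1 : ℂ) else 0) = ((FF M w d (n : ZMod M) : ℝ) : ℂ) := by
        rw [← dig_FF i d n]
        split_ifs <;> simp
      rw [e2, htp n, ← Complex.ofReal_sub, Complex.norm_real, Real.norm_eq_abs]
    rw [sum_congr rfl e1,
      sum_period (fun n : ZMod M => |FF M w d n - ∑ x : ZMod M, FF M w d x * kr K (n - x)|)]
    refine mul_le_mul_of_nonneg_left ?_ (Nat.cast_nonneg _)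
    have e3 : ∀ n ∈ (univ : Finset (ZMod M)), |FF M w d n - ∑ x : ZMod M, FF M w d x * kr K (n - x)| ≤
        ∑ y : ZMod M, kr K y * |FF M w d n - FF M w d (n - y)| := by
      intro n _
      have e4 : FF M w d n - ∑ x : ZMod M, FF M w d x * kr K (n - x) =
          ∑ y : ZMod M, kr K y * (FF M w d n - FF M w d (n - y)) := by
        simp only [mul_sub]
        rw [sum_sub_distrib, ← sum_mul, sum_kr (by omega) (by omega), one_mul]
        congr 1
        refine Fintype.sum_equiv (Equiv.subLeft n) _ _ (fun x => ?_)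
        simp only [Equiv.subLeft_apply, sub_sub_cancel]
        ring
      rw [e4]
      refine (abs_sum_le_sum_abs _ _).trans (sum_le_sum fun y _ => ?_)
      rw [abs_mul, abs_of_nonneg (kr_nonneg _ _)]
    refine (sum_le_sum e3).trans ?_
    rw [sum_comm]
    have e5 : ∀ y ∈ (univ : Finset (ZMod M)), ∑ n : ZMod M, kr K y * |FF M w d n - FF M w d (n - y)| ≤
        kr K y * (2 * mu y) := by
      intro y _
      rw [← mul_sum]
      exact mul_le_mul_of_nonneg_left (var_le hw1 hMd hd y) (kr_nonneg _ _)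
    exact (sum_le_sum e5).trans (sum_kr_mu (by omega))

theorem digp : S_DIG := by
  refine ⟨12, by norm_num, ?_⟩
  intro D i d H hi hd hH
  by_cases hM : 10 ^ i * 10 ≤ H
  · obtain ⟨c, h1, h2, h3, h4⟩ := case_small D i d H hd hH hM
    refine ⟨c, h1, h2, h3, fun n => ?_, fun n => ?_, ?_⟩
    · rw [h4]
      split_ifs <;> norm_num
    · rw [h4]
      split_ifs
      · have : (1 : ℂ) - 1 / 10 = ((9 / 10 : ℝ) : ℂ) := by
          push_cast
          norm_num
        rw [this, Complex.norm_real]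
        norm_num
      · have : (0 : ℂ) - 1 / 10 = ((-1 / 10 : ℝ) : ℂ) := by
          push_cast
          norm_num
        rw [this, Complex.norm_real]
        norm_num
    · simp only [h4, sub_self, norm_zero, sum_const_zero]
      positivity
  · obtain ⟨c, h1, h2, h3, h4, h5⟩ := case_large i d H hd hH (by omega)
    refine ⟨c, h1, h2, h3, fun n => ?_, fun n => ?_, ?_⟩
    · obtain ⟨r, hr0, hr1, hr⟩ := h4 n
      rw [hr, Complex.norm_real, Real.norm_of_nonneg hr0]
      exact hr1
    · obtain ⟨r, hr0, hr1, hr⟩ := h4 n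
      have : (r : ℂ) - 1 / 10 = ((r - 1 / 10 : ℝ) : ℂ) := by push_cast; rfl
      rw [hr, this, Complex.norm_real, Real.norm_eq_abs, abs_le]
      constructor <;> linarith
    · have e1 : 10 ^ D = 10 ^ i * 10 * 10 ^ (D - (i + 1)) := by
        rw [← pow_succ, ← pow_add]
        congr 1
        omega
      have e2 := h5 (10 ^ (D - (i + 1)))
      rw [← e1] at e2
      refine e2.trans ?_
      have hK : (H : ℝ) / 3 ≤ ((H / 2 : ℕ) : ℝ) := by
        have : H ≤ 3 * (H / 2) := by omega
        have h' : (H : ℝ) ≤ 3 * ((H / 2 : ℕ) : ℝ) := by exact_mod_cast this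
        linarith
      have hHr : (0 : ℝ) < H := by exact_mod_cast (by omega : 0 < H)
      have hlog : Real.log ((10 ^ i * 10 : ℕ) : ℝ) ≤ 3 * D := by
        have e3 : ((10 ^ i * 10 : ℕ) : ℝ) = (10 : ℝ) ^ (i + 1) := by
          push_cast
          rw [pow_succ]
        rw [e3, Real.log_pow]
        have e4 : Real.log 10 ≤ 3 := by
          rw [Real.log_le_iff_le_exp (by norm_num)]
          have e5 := Real.exp_one_gt_d9
          have e6 : Real.exp 3 = Real.exp 1 ^ 3 := by
            rw [← Real.exp_nat_mul]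
            norm_num
          rw [e6]
          calc (10 : ℝ) ≤ 2.7182818283 ^ 3 := by norm_num
            _ ≤ Real.exp 1 ^ 3 := pow_le_pow_left₀ (by norm_num) e5.le 3
        have e7 : ((i + 1 : ℕ) : ℝ) ≤ D := by exact_mod_cast hi
        have e8 : (0 : ℝ) ≤ ((i + 1 : ℕ) : ℝ) := by positivity
        have e9 : 0 ≤ Real.log 10 := Real.log_nonneg (by norm_num)
        nlinarith
      have hD1 : (1 : ℝ) ≤ D := by exact_mod_cast (by omega : 1 ≤ D)
      have hc1 : ((10 ^ (D - (i + 1)) : ℕ) : ℝ) * (((10 ^ i * 10 : ℕ) : ℝ) / ((H / 2 : ℕ) : ℝ) *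
          (1 + Real.log ((10 ^ i * 10 : ℕ) : ℝ))) =
          (10 : ℝ) ^ D * (1 / ((H / 2 : ℕ) : ℝ)) * (1 + Real.log ((10 ^ i * 10 : ℕ) : ℝ)) := by
        have e3 : (10 : ℝ) ^ D = ((10 ^ i * 10 : ℕ) : ℝ) * ((10 ^ (D - (i + 1)) : ℕ) : ℝ) := by exact_mod_cast e1
        rw [e3]
        ring
      rw [hc1]
      have hlog0 : 0 ≤ Real.log ((10 ^ i * 10 : ℕ) : ℝ) := Real.log_natCast_nonneg _
      have hinv : 1 / ((H / 2 : ℕ) : ℝ) ≤ 3 / H := by
        rw [div_le_div_iff₀ (by linarith [div_pos hHr (by norm_num : (0 : ℝ) < 3)]) hHr]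
        linarith
      calc (10 : ℝ) ^ D * (1 / ((H / 2 : ℕ) : ℝ)) * (1 + Real.log ((10 ^ i * 10 : ℕ) : ℝ)) ≤
            (10 : ℝ) ^ D * (3 / H) * (4 * D) := by
            refine mul_le_mul (mul_le_mul_of_nonneg_left hinv (by positivity)) (by linarith) (by linarith)
              (by positivity)
        _ = _ := by ring

end Pool.Agent.P8H29.RR
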