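import Pool.Agent.P8H18.RR.Stm
import Pool.Agent.H807R2.Dav1

/-!
# Project RR, package DIG, first part: the Fejer kernel on `ZMod M`
-/

set_option autoImplicit false

namespace Pool.Agent.P8H29.RR

open Finset Pool.Agent.P8H18.RR
open Pool.Agent.H807R2.Dav (dd dd_ge dd_neg sum_inv_range sum_inv_range')

theorem norm_ee (x : ℝ) : ‖ee x‖ = 1 := Pool.Agent.H807R2.Dav.norm_ee x

/-- the standard character -/
noncomputable abbrev ch (M : ℕ) [NeZero M] : AddChar (ZMod M) ℂ := ZMod.stdAddChar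

variable {M : ℕ} [NeZero M]

theorem M_pos : (0 : ℝ) < M := by
  have := NeZero.pos M
  exact_mod_cast this

theorem ch_int (t : ℤ) : ch M (t : ZMod M) = ee ((t : ℝ) / M) := by
  rw [ZMod.stdAddChar_coe]
  unfold ee
  congr 1
  push_cast
  ring

theorem ch_val (x : ZMod M) : ch M x = ee ((x.val : ℝ) / M) := by
  have h1 := ch_int (M := M) (x.val : ℤ)
  simpa using h1

theorem norm_ch (x : ZMod M) : ‖ch M x‖ = 1 := by rw [ch_val, norm_ee]

theorem conj_ch (x : ZMod M) : (starRingEnd ℂ) (ch M x) = ch M (-x) := (AddChar.map_neg_eq_conj _ _).symm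

/-- the distance to zero -/
noncomputable def mu (x : ZMod M) : ℝ := min (x.val : ℝ) (M - x.val)

theorem mu_pos {x : ZMod M} (hx : x ≠ 0) : 0 < mu x := by
  have h1 : 0 < x.val := Nat.pos_of_ne_zero ((ZMod.val_ne_zero x).2 hx)
  have h2 := ZMod.val_lt x
  have h3 : (x.val : ℝ) < M := by exact_mod_cast h2
  have h4 : (0 : ℝ) < x.val := by exact_mod_cast h1
  exact lt_min h4 (by linarith)

theorem dist_val (x : ZMod M) : 4 * mu x / M ≤ ‖1 - ch M x‖ := by
  have h1 : (0 : ℝ) ≤ (x.val : ℝ) / M := by positivity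
  have h2 : (x.val : ℝ) / M ≤ 1 := by
    rw [div_le_one M_pos]
    exact_mod_cast (ZMod.val_lt x).le
  have h3 := dd_ge h1 h2
  have h4 : dd ((x.val : ℝ) / M) = ‖1 - ch M x‖ := by
    rw [ch_val]
    rfl
  rw [← h4]
  refine le_trans (le_of_eq ?_) h3
  unfold mu
  rw [mul_div_assoc, ← min_div_div_right M_pos.le, sub_div, div_self M_pos.ne']

theorem geo_of {z : ℂ} (hz : ‖z‖ = 1) {δ : ℝ} (hδ : 0 < δ) (h : δ ≤ ‖1 - z‖) (N : ℕ) :
    ‖∑ l ∈ range N, z ^ l‖ ≤ 2 / δ := by
  have h1 := geom_sum_mul z N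
  have h2 : ‖∑ l ∈ range N, z ^ l‖ * ‖1 - z‖ ≤ 2 := by
    rw [norm_sub_rev, ← norm_mul, h1]
    refine (norm_sub_le _ _).trans ?_
    rw [norm_pow, hz, one_pow, norm_one]
    norm_num
  rw [le_div_iff₀ hδ]
  exact (mul_le_mul_of_nonneg_left h (norm_nonneg _)).trans h2

theorem geo {x : ZMod M} (hx : x ≠ 0) (N : ℕ) : ‖∑ l ∈ range N, ch M x ^ l‖ ≤ M / (2 * mu x) := by
  have h1 := mu_pos hx
  have h2 := geo_of (norm_ch x) (by have := M_pos (M := M); positivity) (dist_val x) N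
  refine h2.trans (le_of_eq ?_)
  have := M_pos (M := M)
  field_simp
  ring

theorem sum_ch (b : ZMod M) : ∑ x : ZMod M, ch M (x * b) = if b = 0 then (M : ℂ) else 0 := by
  have h1 := AddChar.sum_mulShift b (ZMod.isPrimitive_stdAddChar M)
  rw [h1, ZMod.card]
  push_cast
  rfl

/-- the Fejer kernel -/
noncomputable def kr (N : ℕ) (y : ZMod M) : ℝ := ‖∑ l ∈ range N, ch M y ^ l‖ ^ 2 / (N * M)

theorem kr_nonneg (N : ℕ) (y : ZMod M) : 0 ≤ kr N y := by
  unfold kr
  positivity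

theorem kr_expand (N : ℕ) (y : ZMod M) : ((‖∑ l ∈ range N, ch M y ^ l‖ ^ 2 : ℝ) : ℂ) =
    ∑ p ∈ range N ×ˢ range N, ch M (y * ((p.1 : ZMod M) - p.2)) := by
  push_cast
  rw [← Complex.mul_conj', map_sum, sum_mul_sum, sum_product]
  refine sum_congr rfl fun l _ => sum_congr rfl fun l' _ => ?_
  rw [map_pow, conj_ch, ← AddChar.map_nsmul_eq_pow, ← AddChar.map_nsmul_eq_pow, ← AddChar.map_add_eq_mul]
  congr 1
  simp only [nsmul_eq_mul]
  ring

theorem sum_kr {N : ℕ} (hN : 1 ≤ N) (hNM : N ≤ M) : ∑ y : ZMod M, kr N y = 1 := by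
  have hM := M_pos (M := M)
  have hN' : (0 : ℝ) < N := by exact_mod_cast hN
  have h1 : ((∑ y : ZMod M, ‖∑ l ∈ range N, ch M y ^ l‖ ^ 2 : ℝ) : ℂ) = (((N : ℝ) * M : ℝ) : ℂ) := by
    rw [Complex.ofReal_sum]
    simp only [kr_expand]
    rw [sum_comm]
    simp only [sum_ch]
    rw [sum_product]
    have h2 : ∀ l ∈ range N, ∑ l' ∈ range N, (if ((l : ZMod M) - (l' : ZMod M)) = 0 then (M : ℂ) else 0) = M := by
      intro l hl
      rw [sum_eq_single l]
      · rw [if_pos (sub_self _)]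
      · intro l' hl' hne
        rw [if_neg]
        intro h
        apply hne
        rw [sub_eq_zero, ZMod.natCast_eq_natCast_iff'] at h
        rw [mem_range] at hl hl'
        rw [Nat.mod_eq_of_lt (by omega), Nat.mod_eq_of_lt (by omega)] at h
        exact h.symm
      · intro h
        exact absurd hl h
    rw [sum_congr rfl h2, sum_const, card_range, nsmul_eq_mul]
    push_cast
    rfl
  have h2 : ∑ y : ZMod M, ‖∑ l ∈ range N, ch M y ^ l‖ ^ 2 = (N : ℝ) * M := by exact_mod_cast h1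
  unfold kr
  rw [← sum_div, h2, div_self (by positivity)]

theorem kr_mu {N : ℕ} (hN : 1 ≤ N) {y : ZMod M} (hy : y ≠ 0) :
    kr N y * (2 * mu y) ≤ M / (2 * N) * (1 / (y.val : ℝ) + 1 / ((M : ℝ) - y.val)) := by
  have hM := M_pos (M := M)
  have hN' : (0 : ℝ) < N := by exact_mod_cast hN
  have hmu := mu_pos hy
  have h1 : 0 < y.val := Nat.pos_of_ne_zero ((ZMod.val_ne_zero y).2 hy)
  have h3 : (y.val : ℝ) < M := by exact_mod_cast ZMod.val_lt y
  have h4 : (0 : ℝ) < y.val := by exact_mod_cast h1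
  have h5 : (0 : ℝ) < (M : ℝ) - y.val := by linarith
  have h6 : 1 / mu y ≤ 1 / (y.val : ℝ) + 1 / ((M : ℝ) - y.val) := by
    unfold mu
    rcases min_cases (y.val : ℝ) ((M : ℝ) - y.val) with ⟨h, -⟩ | ⟨h, -⟩ <;> rw [h]
    · have : 0 ≤ 1 / ((M : ℝ) - y.val) := by positivity
      linarith
    · have : 0 ≤ 1 / (y.val : ℝ) := by positivity
      linarith
  have h7 : kr N y ≤ (M / (2 * mu y)) ^ 2 / (N * M) := by
    unfold kr
    refine div_le_div_of_nonneg_right ?_ (by positivity)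
    exact pow_le_pow_left₀ (norm_nonneg _) (geo hy N) 2
  calc kr N y * (2 * mu y) ≤ (M / (2 * mu y)) ^ 2 / (N * M) * (2 * mu y) :=
        mul_le_mul_of_nonneg_right h7 (by positivity)
    _ = M / (2 * N) * (1 / mu y) := by
        field_simp
    _ ≤ _ := mul_le_mul_of_nonneg_left h6 (by positivity)

theorem sum_val (f : ℕ → ℝ) : ∑ y : ZMod M, f y.val = ∑ v ∈ range M, f v := by
  refine sum_nbij' (fun y => y.val) (fun v => (v : ZMod M)) (fun y _ => ?_) (fun v _ => mem_univ _) (fun y _ => ?_)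
    (fun v hv => ?_) (fun y _ => rfl)
  · rw [mem_range]
    exact ZMod.val_lt y
  · exact ZMod.natCast_zmod_val y
  · exact ZMod.val_natCast_of_lt (mem_range.1 hv)

/-- the first moment of the kernel -/
theorem sum_kr_mu {N : ℕ} (hN : 1 ≤ N) : ∑ y : ZMod M, kr N y * (2 * mu y) ≤ M / N * (1 + Real.log M) := by
  have hM := M_pos (M := M)
  have hN' : (0 : ℝ) < N := by exact_mod_cast hN
  have h1 : ∀ y ∈ (univ : Finset (ZMod M)), kr N y * (2 * mu y) ≤
      M / (2 * N) * (1 / (y.val : ℝ) + 1 / ((M : ℝ) - y.val)) := by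
    intro y _
    by_cases hy : y = 0
    · have h2 : mu y = 0 := by
        unfold mu
        rw [hy, ZMod.val_zero]
        simp
      rw [h2]
      have h3 : (y.val : ℝ) < M := by exact_mod_cast ZMod.val_lt y
      have h5 : (0 : ℝ) < (M : ℝ) - y.val := by linarith
      simp only [mul_zero]
      positivity
    · exact kr_mu hN hy
  refine (sum_le_sum h1).trans ?_
  rw [← mul_sum, sum_val (fun v => 1 / (v : ℝ) + 1 / ((M : ℝ) - v)), sum_add_distrib]
  have h2 := sum_inv_range M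
  have h3 := sum_inv_range' M
  calc (M : ℝ) / (2 * N) * (∑ v ∈ range M, 1 / (v : ℝ) + ∑ v ∈ range M, 1 / ((M : ℝ) - v)) ≤
        M / (2 * N) * ((1 + Real.log M) + (1 + Real.log M)) :=
        mul_le_mul_of_nonneg_left (add_le_add h2 h3) (by positivity)
    _ = _ := by
        field_simp
        ring

end Pool.Agent.P8H29.RR
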