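import Pool.Agent.P8H29.RR.Dig1

/-!
# Project RR, package DIG, second part: the indicator of a digit and its Fourier coefficients
-/

set_option autoImplicit false

namespace Pool.Agent.P8H29.RR

open Finset Pool.Agent.P8H18.RR
open Pool.Agent.H807R2.Dav (dd dd_ge dd_neg sum_inv_range sum_inv_range')

variable {M : ℕ} [NeZero M]

/-- the indicator of `[d w, (d + 1) w)` -/
noncomputable def FF (M w d : ℕ) (x : ZMod M) : ℝ := if x.val / w = d then 1 else 0

/-- its Fourier coefficients, multiplied by `M` -/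
noncomputable def AA (M w d : ℕ) [NeZero M] (h : ZMod M) : ℂ := ∑ x : ZMod M, (FF M w d x : ℂ) * ch M (-h * x)

/-- the sum over the interval -/
theorem sum_FF {w d : ℕ} (hw : 1 ≤ w) (hM : M = w * 10) (hd : d < 10) (f : ZMod M → ℂ) :
    ∑ x : ZMod M, (FF M w d x : ℂ) * f x = ∑ r ∈ range w, f (((d * w + r : ℕ)) : ZMod M) := by
  unfold FF
  have h1 : ∑ x : ZMod M, (((if x.val / w = d then (1 : ℝ) else 0) : ℝ) : ℂ) * f x =
      ∑ x ∈ univ.filter (fun x : ZMod M => x.val / w = d), f x := by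
    rw [sum_filter]
    refine sum_congr rfl fun x _ => ?_
    split_ifs <;> simp
  rw [h1]
  have hlt : ∀ r < w, d * w + r < M := by
    intro r hr
    rw [hM]
    have : (d + 1) * w ≤ 10 * w := Nat.mul_le_mul_right w (by omega)
    nlinarith
  refine sum_nbij' (fun x => x.val % w) (fun r => ((d * w + r : ℕ) : ZMod M)) (fun x _ => ?_) (fun r hr => ?_)
    (fun x hx => ?_) (fun r hr => ?_) (fun x hx => ?_)
  · rw [mem_range]
    exact Nat.mod_lt _ hw
  · rw [mem_filter, ZMod.val_natCast_of_lt (hlt r (mem_range.1 hr))]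
    refine ⟨mem_univ _, ?_⟩
    rw [mul_comm, Nat.mul_add_div hw, Nat.div_eq_of_lt (mem_range.1 hr), add_zero]
  · rw [mem_filter] at hx
    have h2 : d * w + x.val % w = x.val := by
      rw [← hx.2, mul_comm]
      exact Nat.div_add_mod _ _
    rw [h2]
    exact ZMod.natCast_zmod_val x
  · rw [ZMod.val_natCast_of_lt (hlt r (mem_range.1 hr)), mul_comm, Nat.mul_add_mod, Nat.mod_eq_of_lt (mem_range.1 hr)]
  · rw [mem_filter] at hx
    have h2 : d * w + x.val % w = x.val := by
      rw [← hx.2, mul_comm]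
      exact Nat.div_add_mod _ _
    rw [h2, ZMod.natCast_zmod_val x]

theorem AA_eq {w d : ℕ} (hw : 1 ≤ w) (hM : M = w * 10) (hd : d < 10) (h : ZMod M) :
    AA M w d h = ch M (-h * (d * w : ℕ)) * ∑ r ∈ range w, ch M (-h) ^ r := by
  unfold AA
  rw [sum_FF hw hM hd (fun x => ch M (-h * x)), mul_sum]
  refine sum_congr rfl fun r _ => ?_
  rw [← AddChar.map_nsmul_eq_pow, ← AddChar.map_add_eq_mul]
  congr 1
  simp only [nsmul_eq_mul]
  push_cast
  ring

theorem AA_zero {w d : ℕ} (hw : 1 ≤ w) (hM : M = w * 10) (hd : d < 10) : AA M w d 0 = w := by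
  rw [AA_eq hw hM hd]
  simp

theorem AA_ten {w d : ℕ} (hw : 1 ≤ w) (hM : M = w * 10) (hd : d < 10) {h : ZMod M} (h0 : h ≠ 0)
    (h10 : (w : ZMod M) * h = 0) : AA M w d h = 0 := by
  rw [AA_eq hw hM hd]
  have h1 : ch M (-h) ≠ 1 := by
    intro hh
    have h2 := dist_val (-h)
    rw [hh, sub_self, norm_zero] at h2
    have h3 := mu_pos (neg_ne_zero.2 h0)
    have h4 := M_pos (M := M)
    have : 0 < 4 * mu (-h) / M := by positivity
    linarith
  have h2 := geom_sum_mul (ch M (-h)) w
  have h3 : ch M (-h) ^ w = 1 := by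
    rw [← AddChar.map_nsmul_eq_pow]
    have : w • (-h) = 0 := by
      simp only [nsmul_eq_mul, mul_neg, h10, neg_zero]
    rw [this, AddChar.map_zero_eq_one]
  rw [h3, sub_self] at h2
  rw [(mul_eq_zero.1 h2).resolve_right (sub_ne_zero.2 h1), mul_zero]

theorem norm_AA_of {w d : ℕ} (hw : 1 ≤ w) (hM : M = w * 10) (hd : d < 10) (h : ZMod M) {δ : ℝ} (hδ : 0 < δ)
    (hb : δ ≤ ‖1 - ch M h‖) : ‖AA M w d h‖ ≤ 2 / δ := by
  rw [AA_eq hw hM hd, norm_mul, norm_ch, one_mul]
  refine geo_of (norm_ch _) hδ (hb.trans (le_of_eq ?_)) w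
  rw [← conj_ch, ← Complex.norm_conj, map_sub, map_one]

/-- the bound by the distance to zero -/
theorem norm_AA_val {w d : ℕ} (hw : 1 ≤ w) (hM : M = w * 10) (hd : d < 10) {h : ZMod M} (h0 : h ≠ 0) :
    ‖AA M w d h‖ ≤ M / 2 * (1 / (h.val : ℝ) + 1 / ((M : ℝ) - h.val)) := by
  have hM' := M_pos (M := M)
  have hmu := mu_pos h0
  have h1 := norm_AA_of hw hM hd h (by positivity) (dist_val h)
  refine h1.trans ?_
  have h2 : (0 : ℝ) < h.val := by exact_mod_cast Nat.pos_of_ne_zero ((ZMod.val_ne_zero h).2 h0)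
  have h3 : (h.val : ℝ) < M := by exact_mod_cast ZMod.val_lt h
  have h5 : (0 : ℝ) < (M : ℝ) - h.val := by linarith
  have h6 : 1 / mu h ≤ 1 / (h.val : ℝ) + 1 / ((M : ℝ) - h.val) := by
    unfold mu
    rcases min_cases (h.val : ℝ) ((M : ℝ) - h.val) with ⟨hc, -⟩ | ⟨hc, -⟩ <;> rw [hc]
    · have : 0 ≤ 1 / ((M : ℝ) - h.val) := by positivity
      linarith
    · have : 0 ≤ 1 / (h.val : ℝ) := by positivity
      linarith
  calc 2 / (4 * mu h / M) = M / 2 * (1 / mu h) := by
        field_simp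
        ring
    _ ≤ _ := mul_le_mul_of_nonneg_left h6 (by positivity)

/-- the bound by the absolute value -/
theorem norm_AA_int {w d : ℕ} (hw : 1 ≤ w) (hM : M = w * 10) (hd : d < 10) {h : ℤ} (h0 : h ≠ 0)
    (h2 : 2 * |h| ≤ (M : ℤ)) : ‖AA M w d (h : ZMod M)‖ ≤ M / (2 * |(h : ℝ)|) := by
  have hM' := M_pos (M := M)
  have ha : (0 : ℝ) < |(h : ℝ)| := abs_pos.2 (by exact_mod_cast h0)
  have h3 : (2 : ℝ) * |(h : ℝ)| ≤ M := by exact_mod_cast h2
  have h4 : 4 * (|(h : ℝ)| / M) ≤ ‖1 - ch M (h : ZMod M)‖ := by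
    have e1 : (0 : ℝ) ≤ |(h : ℝ)| / M := by positivity
    have e2 : |(h : ℝ)| / M ≤ 1 / 2 := by
      rw [div_le_div_iff₀ hM' two_pos]
      linarith
    have e3 := dd_ge e1 (by linarith)
    rw [min_eq_left (by linarith)] at e3
    refine e3.trans (le_of_eq ?_)
    have e4 : dd (|(h : ℝ)| / M) = dd ((h : ℝ) / M) := by
      rcases abs_cases (h : ℝ) with ⟨hc, -⟩ | ⟨hc, -⟩ <;> rw [hc]
      rw [neg_div, dd_neg]
    rw [e4, ch_int]
    rfl
  refine (norm_AA_of hw hM hd _ (by positivity) h4).trans (le_of_eq ?_)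
  field_simp
  ring

/-! ### the variation of the indicator -/

theorem FF_step {w d : ℕ} (hw : 1 ≤ w) (hM : M = w * 10) (hd : d < 10) (x : ZMod M) :
    |FF M w d x - FF M w d (x - 1)| ≤ (if x = ((d * w : ℕ) : ZMod M) then 1 else 0) +
      (if x = (((d + 1) * w : ℕ) : ZMod M) then 1 else 0) := by
  have hM10 : 10 ≤ M := by omega
  by_cases hFF : FF M w d x = FF M w d (x - 1)
  · rw [hFF, sub_self, abs_zero]
    split_ifs <;> norm_num
  have hle : |FF M w d x - FF M w d (x - 1)| ≤ 1 := by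
    unfold FF
    split_ifs <;> norm_num
  refine hle.trans ?_
  have hor : x = ((d * w : ℕ) : ZMod M) ∨ x = (((d + 1) * w : ℕ) : ZMod M) := by
    have hxv : ((x.val : ℕ) : ZMod M) = x := ZMod.natCast_zmod_val x
    have hdw : d * w + w ≤ w * 10 := by
      have : (d + 1) * w ≤ 10 * w := Nat.mul_le_mul_right w (by omega)
      nlinarith
    by_cases hx0 : x = 0
    · -- the value zero
      have hv : (x - 1).val = M - 1 := by
        rw [hx0, zero_sub]
        rcases M with _ | M
        · omega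
        · rw [ZMod.val_neg_one]
          rfl
      unfold FF at hFF
      rw [hv, hx0, ZMod.val_zero, Nat.zero_div] at hFF
      have h9 : (M - 1) / w = 9 := by
        rw [hM]
        refine Nat.div_eq_of_lt_le ?_ ?_ <;> omega
      rw [h9] at hFF
      by_cases hd0 : d = 0
      · left
        rw [hx0, hd0]
        simp
      · by_cases hd9 : d = 9
        · right
          rw [hx0, hd9]
          have : (((9 + 1) * w : ℕ) : ZMod M) = ((M : ℕ) : ZMod M) := by
            congr 1
            omega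
          rw [this, ZMod.natCast_self]
        · exfalso
          apply hFF
          rw [if_neg (fun hh => hd0 hh.symm), if_neg (fun hh => hd9 hh.symm)]
    · have hv : (x - 1).val = x.val - 1 := by
        have h1 : (1 : ZMod M).val = 1 := by
          have : Fact (1 < M) := ⟨by omega⟩
          exact ZMod.val_one M
        rw [ZMod.val_sub, h1]
        rw [h1]
        exact Nat.pos_of_ne_zero ((ZMod.val_ne_zero x).2 hx0)
      have hpos : 0 < x.val := Nat.pos_of_ne_zero ((ZMod.val_ne_zero x).2 hx0)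
      unfold FF at hFF
      rw [hv] at hFF
      have hc : (x.val / w = d ∧ ¬ (x.val - 1) / w = d) ∨ (¬ x.val / w = d ∧ (x.val - 1) / w = d) := by
        by_cases h1 : x.val / w = d <;> by_cases h2 : (x.val - 1) / w = d
        · exact absurd (by rw [if_pos h1, if_pos h2]) hFF
        · exact Or.inl ⟨h1, h2⟩
        · exact Or.inr ⟨h1, h2⟩
        · exact absurd (by rw [if_neg h1, if_neg h2]) hFF
      rcases hc with ⟨h1, h2⟩ | ⟨h1, h2⟩
      · left
        rw [← hxv]
        congr 1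
        have e1 := (Nat.div_eq_iff (by omega : 0 < w)).1 h1
        by_contra hne
        apply h2
        rw [Nat.div_eq_iff (by omega)]
        omega
      · right
        rw [← hxv]
        congr 1
        have e1 := (Nat.div_eq_iff (by omega : 0 < w)).1 h2
        have e3 : (d + 1) * w = d * w + w := by ring
        by_contra hne
        apply h1
        rw [Nat.div_eq_iff (by omega)]
        omega
  rcases hor with h | h
  · rw [if_pos h]
    split_ifs <;> norm_num
  · rw [if_pos h]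
    split_ifs <;> norm_num

theorem var_one {w d : ℕ} (hw : 1 ≤ w) (hM : M = w * 10) (hd : d < 10) :
    ∑ x : ZMod M, |FF M w d x - FF M w d (x - 1)| ≤ 2 := by
  refine (sum_le_sum fun x _ => FF_step hw hM hd x).trans ?_
  rw [sum_add_distrib, sum_ite_eq', sum_ite_eq', if_pos (mem_univ _), if_pos (mem_univ _)]
  norm_num

theorem var_nat {w d : ℕ} (hw : 1 ≤ w) (hM : M = w * 10) (hd : d < 10) (t : ℕ) :
    ∑ x : ZMod M, |FF M w d x - FF M w d (x - t)| ≤ 2 * t := by
  induction t with
  | zero => simp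
  | succ t ih =>
    have h1 : ∀ x ∈ (univ : Finset (ZMod M)), |FF M w d x - FF M w d (x - ((t + 1 : ℕ) : ZMod M))| ≤
        |FF M w d x - FF M w d (x - t)| + |FF M w d (x - t) - FF M w d (x - t - 1)| := by
      intro x _
      have e1 : x - ((t + 1 : ℕ) : ZMod M) = x - t - 1 := by
        push_cast
        ring
      rw [e1]
      exact abs_sub_le _ _ _
    refine (sum_le_sum h1).trans ?_
    rw [sum_add_distrib]
    have h2 : ∑ x : ZMod M, |FF M w d (x - t) - FF M w d (x - t - 1)| =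
        ∑ x : ZMod M, |FF M w d x - FF M w d (x - 1)| :=
      Fintype.sum_equiv (Equiv.subRight (t : ZMod M)) _ _ (fun x => rfl)
    rw [h2]
    have h3 := var_one (M := M) hw hM hd
    push_cast
    linarith

theorem var_le {w d : ℕ} (hw : 1 ≤ w) (hM : M = w * 10) (hd : d < 10) (y : ZMod M) :
    ∑ x : ZMod M, |FF M w d x - FF M w d (x - y)| ≤ 2 * mu y := by
  have hy : ((y.val : ℕ) : ZMod M) = y := ZMod.natCast_zmod_val y
  have hlt := ZMod.val_lt y
  have h1 := var_nat (M := M) hw hM hd y.val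
  rw [hy] at h1
  have h2 : ∑ x : ZMod M, |FF M w d x - FF M w d (x - y)| ≤ 2 * ((M : ℝ) - y.val) := by
    have e1 := var_nat (M := M) hw hM hd (M - y.val)
    have e2 : ((M - y.val : ℕ) : ZMod M) = -y := by
      rw [Nat.cast_sub hlt.le, ZMod.natCast_self, hy, zero_sub]
    rw [e2, Nat.cast_sub hlt.le] at e1
    refine le_trans (le_of_eq ?_) e1
    refine Fintype.sum_equiv (Equiv.subRight y) _ _ (fun x => ?_)
    simp only [Equiv.subRight_apply]
    rw [sub_neg_eq_add, sub_add_cancel, abs_sub_comm]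
  unfold mu
  rcases min_cases (y.val : ℝ) ((M : ℝ) - y.val) with ⟨hc, -⟩ | ⟨hc, -⟩ <;> rw [hc]
  · exact h1
  · exact h2

end Pool.Agent.P8H29.RR
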