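import Pool.Agent.P8H18.RR.Stm

/-!
# Project RR, package MOM: second moment over the rules
-/

set_option autoImplicit false

namespace Pool.Agent.P8H29.RR

open Finset Pool.Agent.P8H18.RR

/-- the quadratic form of a symmetric idempotent kernel -/
theorem quad {Z : Type} [Fintype Z] (k : Z → Z → ℝ) (hs : ∀ a b, k a b = k b a)
    (hi : ∀ a b, ∑ c, k a c * k c b = k a b) (G : Z → ℝ) :
    0 ≤ ∑ a, ∑ b, G a * G b * k a b ∧ ∑ a, ∑ b, G a * G b * k a b ≤ ∑ a, G a ^ 2 := by
  have h1 : ∑ a, ∑ b, G a * G b * k a b = ∑ c, (∑ a, G a * k a c) ^ 2 := by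
    calc ∑ a, ∑ b, G a * G b * k a b = ∑ a, ∑ b, ∑ c, (G a * k a c) * (G b * k b c) := by
          refine sum_congr rfl fun a _ => sum_congr rfl fun b _ => ?_
          rw [← hi a b, mul_sum]
          refine sum_congr rfl fun c _ => ?_
          rw [hs c b]
          ring
      _ = ∑ c, ∑ a, ∑ b, (G a * k a c) * (G b * k b c) :=
          (sum_congr rfl fun a _ => sum_comm).trans sum_comm
      _ = _ := by
          refine sum_congr rfl fun c _ => ?_
          rw [sq, sum_mul_sum]
  refine ⟨by rw [h1]; exact sum_nonneg fun c _ => sq_nonneg _, ?_⟩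
  have h2 : 0 ≤ ∑ c, (G c - ∑ a, G a * k a c) ^ 2 := sum_nonneg fun c _ => sq_nonneg _
  have h3 : ∑ c, (G c - ∑ a, G a * k a c) ^ 2 =
      ∑ c, G c ^ 2 - 2 * ∑ a, ∑ b, G a * G b * k a b + ∑ c, (∑ a, G a * k a c) ^ 2 := by
    have h4 : ∑ a, ∑ b, G a * G b * k a b = ∑ c, G c * ∑ a, G a * k a c := by
      rw [sum_comm]
      refine sum_congr rfl fun c _ => ?_
      rw [mul_sum]
      exact sum_congr rfl fun a _ => by ring
    rw [h4, mul_sum, ← sum_sub_distrib, ← sum_add_distrib]
    exact sum_congr rfl fun c _ => by ring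
  rw [h3, ← h1] at h2
  linarith

/-! ### one coordinate -/

/-- pairs of digits -/
abbrev PP : Type := Fin 10 × Fin 10

theorem aa_symm (x y : Fin 10) : aa x y = aa y x := by
  unfold aa
  simp only [eq_comm]

theorem aa_sum (x : Fin 10) : ∑ z, aa x z = 0 := by
  unfold aa
  rw [sum_sub_distrib, sum_ite_eq]
  simp

theorem aa_mul (x x' : Fin 10) : ∑ z, aa x z * aa z x' = aa x x' := by
  have h1 : ∀ z, aa x z * aa z x' = (if x = z then aa z x' else 0) - (1 / 10) * aa x' z := by
    intro z
    rw [aa_symm x' z]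
    conv_lhs => rw [aa]
    split_ifs <;> ring
  simp only [h1]
  rw [sum_sub_distrib, ← mul_sum, aa_sum, sum_ite_eq]
  simp

/-- the kernel on pairs -/
noncomputable def RR (p q : PP) : ℝ := aa p.1 q.1 * aa p.2 q.2

theorem RR_symm (p q : PP) : RR p q = RR q p := by
  unfold RR
  rw [aa_symm p.1, aa_symm p.2]

theorem RR_mul (p q : PP) : ∑ c, RR p c * RR c q = RR p q := by
  rw [Fintype.sum_prod_type]
  unfold RR
  rw [← aa_mul p.1 q.1, ← aa_mul p.2 q.2, sum_mul_sum]
  refine sum_congr rfl fun a _ => sum_congr rfl fun b _ => ?_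
  simp only
  ring

theorem RR_sum (p : PP) : ∑ c, RR p c = 0 := by
  rw [Fintype.sum_prod_type]
  unfold RR
  simp only
  rw [← sum_mul_sum, aa_sum, zero_mul]

theorem RR_sum' (p : PP) : ∑ c, RR c p = 0 := by
  simp only [RR_symm _ p]
  exact RR_sum p

theorem card_PP : (Finset.univ : Finset PP).card = 100 := by simp

/-- the kernels which are summed -/
noncomputable def kk (b : Prop) [Decidable b] (p q : PP) : ℝ := if b then RR p q else 1 / 100

theorem kk_symm (b : Prop) [Decidable b] (p q : PP) : kk b p q = kk b q p := by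
  unfold kk
  rw [RR_symm]

theorem kk_mul (b : Prop) [Decidable b] (p q : PP) : ∑ c, kk b p c * kk b c q = kk b p q := by
  unfold kk
  split_ifs
  · exact RR_mul p q
  · rw [sum_const, card_PP]
    norm_num

theorem tot_mul (p q : PP) : ∑ c, (RR p c + 1 / 100) * (RR c q + 1 / 100) = RR p q + 1 / 100 := by
  have h1 : ∀ c, (RR p c + 1 / 100) * (RR c q + 1 / 100) =
      RR p c * RR c q + (1 / 100) * RR p c + (1 / 100) * RR c q + 1 / 100 * (1 / 100) := fun c => by ring
  simp only [h1]
  rw [sum_add_distrib, sum_add_distrib, sum_add_distrib, RR_mul, ← mul_sum, ← mul_sum, RR_sum, RR_sum', sum_const,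
    card_PP]
  norm_num

/-! ### products -/

variable {n : ℕ}

/-- products of kernels -/
theorem prod_kernel (κ : Fin n → PP → PP → ℝ) (hκ : ∀ i p q, ∑ c, κ i p c * κ i c q = κ i p q)
    (z w : Fin n → PP) : ∑ c : Fin n → PP, (∏ i, κ i (z i) (c i)) * (∏ i, κ i (c i) (w i)) = ∏ i, κ i (z i) (w i) := by
  have h1 : ∏ i, κ i (z i) (w i) = ∏ i, ∑ c, κ i (z i) c * κ i c (w i) :=
    prod_congr rfl fun i _ => (hκ i _ _).symm
  rw [h1, prod_univ_sum, Fintype.piFinset_univ]
  refine sum_congr rfl fun c _ => ?_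
  rw [prod_mul_distrib]

theorem sum_pairs (F : (Fin n → Fin 10) → (Fin n → Fin 10) → ℝ) :
    ∑ z : Fin n → PP, F (fun i => (z i).1) (fun i => (z i).2) = ∑ x, ∑ y, F x y := by
  rw [← Fintype.sum_prod_type']
  exact Fintype.sum_equiv (Equiv.arrowProdEquivProdArrow (Fin n) (fun _ => Fin 10) (fun _ => Fin 10)) _ _
    (fun z => rfl)

/-- the kernel of a set -/
noncomputable def MS (S : Finset (Fin n)) (z w : Fin n → PP) : ℝ := ∏ i, kk (i ∈ S) (z i) (w i)

theorem MS_symm (S : Finset (Fin n)) (z w : Fin n → PP) : MS S z w = MS S w z :=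
  prod_congr rfl fun i _ => kk_symm _ _ _

theorem MS_mul (S : Finset (Fin n)) (z w : Fin n → PP) : ∑ c, MS S z c * MS S c w = MS S z w :=
  prod_kernel (fun i => kk (i ∈ S)) (fun i => kk_mul _) z w

theorem MS_eq (S : Finset (Fin n)) (z w : Fin n → PP) :
    MS S z w = (∏ i ∈ S, RR (z i) (w i)) * (1 / 100) ^ (n - S.card) := by
  unfold MS kk
  rw [← prod_mul_prod_compl S]
  congr 1
  · exact prod_congr rfl fun i hi => if_pos hi
  · rw [prod_congr rfl (g := fun _ => (1 / 100 : ℝ)) fun i hi => if_neg (mem_compl.1 hi), prod_const, card_compl,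
      Fintype.card_fin]

theorem MS_empty (z w : Fin n → PP) : MS ∅ z w = (1 / 100) ^ n := by
  rw [MS_eq]
  simp

theorem sum_MS (z w : Fin n → PP) : ∑ S, MS S z w = ∏ i, (RR (z i) (w i) + 1 / 100) := by
  rw [Fintype.prod_add]
  refine sum_congr rfl fun S _ => ?_
  rw [MS_eq, prod_const, card_compl, Fintype.card_fin]

theorem sum_MS9 (z w : Fin n → PP) :
    ∑ S, (1 / 9) ^ S.card * MS S z w = ∏ i, (1 / 100 + RR (z i) (w i) / 9) := by
  have h1 : ∏ i, (1 / 100 + RR (z i) (w i) / 9) = ∏ i, (RR (z i) (w i) / 9 + 1 / 100) :=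
    prod_congr rfl fun i _ => add_comm _ _
  rw [h1, Fintype.prod_add]
  refine sum_congr rfl fun S _ => ?_
  rw [MS_eq, prod_const, card_compl, Fintype.card_fin, ← mul_assoc]
  congr 1
  simp only [div_eq_mul_inv]
  rw [prod_mul_distrib, prod_const, one_mul, mul_comm]

/-- the quadratic form of a set -/
noncomputable def QQ (G : (Fin n → PP) → ℝ) (S : Finset (Fin n)) : ℝ := ∑ z, ∑ w, G z * G w * MS S z w

theorem QQ_nonneg (G : (Fin n → PP) → ℝ) (S : Finset (Fin n)) : 0 ≤ QQ G S :=
  (quad (MS S) (MS_symm S) (MS_mul S) G).1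

theorem QQ_sum (G : (Fin n → PP) → ℝ) : ∑ S, QQ G S ≤ ∑ z, G z ^ 2 := by
  have h1 : ∑ S, QQ G S = ∑ z, ∑ w, G z * G w * ∏ i, (RR (z i) (w i) + 1 / 100) := by
    unfold QQ
    calc ∑ S, ∑ z, ∑ w, G z * G w * MS S z w = ∑ z, ∑ w, ∑ S, G z * G w * MS S z w :=
          sum_comm.trans (sum_congr rfl fun z _ => sum_comm)
      _ = _ := by
          refine sum_congr rfl fun z _ => sum_congr rfl fun w _ => ?_
          rw [← mul_sum, sum_MS]
  rw [h1]
  refine (quad (fun z w : Fin n → PP => ∏ i, (RR (z i) (w i) + 1 / 100)) (fun z w => ?_) (fun z w => ?_) G).2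
  · exact prod_congr rfl fun i _ => by rw [RR_symm]
  · exact prod_kernel (fun _ p q => RR p q + 1 / 100) (fun _ => tot_mul) z w

/-! ### counting -/

variable {Sg : Finset (Equiv.Perm (Fin 10))}

theorem card_ne_ten (y : Fin 10) : (univ.filter (fun y' : Fin 10 => y ≠ y')).card = 9 := by
  revert y
  decide

/-- one coordinate: first moments -/
theorem one_pt (h2 : TwoTr Sg) (x y : Fin 10) :
    ∑ t ∈ Sg, (if t x = y then (1 : ℝ) else 0) = (Sg.card : ℝ) * (1 / 10) := by
  obtain ⟨x', hx'⟩ : ∃ x' : Fin 10, x ≠ x' := ⟨x + 1, by revert x; decide⟩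
  have h1 : ∀ t ∈ Sg, (if t x = y then (1 : ℝ) else 0) =
      ∑ y' ∈ univ.filter (fun y' => y ≠ y'), (if t x = y ∧ t x' = y' then (1 : ℝ) else 0) := by
    intro t _
    split_ifs with h
    · rw [sum_eq_single (t x')]
      · rw [if_pos ⟨h, rfl⟩]
      · intro b _ hb
        rw [if_neg fun hh => hb hh.2.symm]
      · intro hh
        exfalso
        apply hh
        rw [mem_filter]
        exact ⟨mem_univ _, fun hc => hx' (t.injective (by rw [h, hc]))⟩
    · exact (sum_eq_zero fun b _ => if_neg fun hh => h hh.1).symm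
  rw [sum_congr rfl h1, sum_comm]
  have h3 : ∀ y' ∈ univ.filter (fun y' => y ≠ y'), ∑ t ∈ Sg, (if t x = y ∧ t x' = y' then (1 : ℝ) else 0) =
      (Sg.card : ℝ) * (1 / 90) := by
    intro y' hy'
    have h4 := h2 x x' y y' hx' (mem_filter.1 hy').2
    rw [sum_boole]
    have h5 : (90 : ℝ) * ((Sg.filter (fun s => s x = y ∧ s x' = y')).card : ℝ) = Sg.card := by exact_mod_cast h4
    rw [← h5]
    ring
  rw [sum_congr rfl h3, sum_const]
  rw [card_ne_ten]
  simp only [nsmul_eq_mul]
  push_cast
  ring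

/-- one coordinate: second moments -/
theorem two_pt (h2 : TwoTr Sg) (p q : PP) :
    ∑ t ∈ Sg, (if t p.1 = p.2 then (1 : ℝ) else 0) * (if t q.1 = q.2 then (1 : ℝ) else 0) =
      (Sg.card : ℝ) * (1 / 100 + RR p q / 9) := by
  obtain ⟨x, y⟩ := p
  obtain ⟨x', y'⟩ := q
  simp only
  unfold RR aa
  simp only
  by_cases hx : x = x'
  · subst hx
    by_cases hy : y = y'
    · subst hy
      have h1 : ∀ t ∈ Sg, (if t x = y then (1 : ℝ) else 0) * (if t x = y then (1 : ℝ) else 0) =
          if t x = y then (1 : ℝ) else 0 := by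
        intro t _
        split_ifs <;> ring
      rw [sum_congr rfl h1, one_pt h2]
      norm_num
    · rw [sum_eq_zero]
      · rw [if_pos rfl, if_neg hy]
        norm_num
      · intro t _
        by_cases h : t x = y
        · rw [if_neg (fun hh : t x = y' => hy (h.symm.trans hh)), mul_zero]
        · rw [if_neg h, zero_mul]
  · by_cases hy : y = y'
    · subst hy
      rw [sum_eq_zero]
      · rw [if_pos rfl, if_neg hx]
        norm_num
      · intro t _
        by_cases h : t x = y
        · rw [if_neg (fun hh : t x' = y => hx (t.injective (h.trans hh.symm))), mul_zero]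
        · rw [if_neg h, zero_mul]
    · have h1 : ∀ t ∈ Sg, (if t x = y then (1 : ℝ) else 0) * (if t x' = y' then (1 : ℝ) else 0) =
          if t x = y ∧ t x' = y' then (1 : ℝ) else 0 := by
        intro t _
        by_cases h : t x = y <;> by_cases h' : t x' = y' <;> simp [h, h']
      have h4 := h2 x x' y y' hx hy
      rw [sum_congr rfl h1, sum_boole, if_neg hx, if_neg hy]
      have h5 : (90 : ℝ) * ((Sg.filter (fun s => s x = y ∧ s x' = y')).card : ℝ) = Sg.card := by exact_mod_cast h4
      rw [← h5]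
      ring

/-- the number attached to a rule -/
theorem cnt_eq (g : (Fin n → Fin 10) → (Fin n → Fin 10) → ℝ) (s : Fin n → Equiv.Perm (Fin 10)) :
    ∑ x, g x (fun i => s i (x i)) =
      ∑ z : Fin n → PP, g (fun i => (z i).1) (fun i => (z i).2) * ∏ i, (if s i (z i).1 = (z i).2 then (1 : ℝ) else 0) := by
  rw [sum_pairs (fun x y => g x y * ∏ i, (if s i (x i) = y i then (1 : ℝ) else 0))]
  refine sum_congr rfl fun x _ => ?_
  rw [sum_eq_single (fun i => s i (x i))]
  · simp
  · intro y _ hy
    obtain ⟨i, hi⟩ : ∃ i, s i (x i) ≠ y i := by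
      by_contra hcon
      push Not at hcon
      exact hy (funext fun i => (hcon i).symm)
    rw [prod_eq_zero (mem_univ i) (if_neg hi), mul_zero]
  · intro h
    exact absurd (mem_univ _) h

theorem first_moment (h2 : TwoTr Sg) (g : (Fin n → Fin 10) → (Fin n → Fin 10) → ℝ) :
    ∑ s ∈ Fintype.piFinset (fun _ : Fin n => Sg), ∑ x, g x (fun i => s i (x i)) =
      (Sg.card : ℝ) ^ n * ((∑ x, ∑ y, g x y) / 10 ^ n) := by
  simp only [cnt_eq]
  rw [sum_comm, ← sum_pairs g]
  rw [← mul_div_assoc, mul_sum, sum_div]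
  refine sum_congr rfl fun z _ => ?_
  rw [← mul_sum, ← prod_univ_sum (fun _ : Fin n => Sg) (fun i (t : Equiv.Perm (Fin 10)) =>
    if t (z i).1 = (z i).2 then (1 : ℝ) else 0)]
  simp only [one_pt h2]
  rw [prod_const, card_univ, Fintype.card_fin, mul_pow, one_div, inv_pow]
  ring

theorem second_moment (h2 : TwoTr Sg) (g : (Fin n → Fin 10) → (Fin n → Fin 10) → ℝ) :
    ∑ s ∈ Fintype.piFinset (fun _ : Fin n => Sg), (∑ x, g x (fun i => s i (x i))) ^ 2 =
      (Sg.card : ℝ) ^ n * ∑ S, (1 / 9) ^ S.card *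
        QQ (fun z : Fin n → PP => g (fun i => (z i).1) (fun i => (z i).2)) S := by
  set G : (Fin n → PP) → ℝ := fun z => g (fun i => (z i).1) (fun i => (z i).2) with hG
  have h1 : ∀ s : Fin n → Equiv.Perm (Fin 10), (∑ x, g x (fun i => s i (x i))) ^ 2 =
      ∑ z, ∑ w, G z * G w * ∏ i, ((if s i (z i).1 = (z i).2 then (1 : ℝ) else 0) *
        (if s i (w i).1 = (w i).2 then (1 : ℝ) else 0)) := by
    intro s
    rw [cnt_eq, sq, sum_mul_sum]
    refine sum_congr rfl fun z _ => sum_congr rfl fun w _ => ?_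
    rw [prod_mul_distrib]
    ring
  simp only [h1]
  calc ∑ s ∈ Fintype.piFinset (fun _ : Fin n => Sg), ∑ z, ∑ w, G z * G w *
        ∏ i, ((if s i (z i).1 = (z i).2 then (1 : ℝ) else 0) * (if s i (w i).1 = (w i).2 then (1 : ℝ) else 0))
      = ∑ z, ∑ w, ∑ s ∈ Fintype.piFinset (fun _ : Fin n => Sg), G z * G w *
        ∏ i, ((if s i (z i).1 = (z i).2 then (1 : ℝ) else 0) * (if s i (w i).1 = (w i).2 then (1 : ℝ) else 0)) :=
        sum_comm.trans (sum_congr rfl fun z _ => sum_comm)
    _ = ∑ z, ∑ w, (Sg.card : ℝ) ^ n * (G z * G w * ∑ S, (1 / 9) ^ S.card * MS S z w) := by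
        refine sum_congr rfl fun z _ => sum_congr rfl fun w _ => ?_
        rw [← mul_sum, ← prod_univ_sum (fun _ : Fin n => Sg) (fun i (t : Equiv.Perm (Fin 10)) =>
          (if t (z i).1 = (z i).2 then (1 : ℝ) else 0) * (if t (w i).1 = (w i).2 then (1 : ℝ) else 0))]
        simp only [two_pt h2]
        rw [prod_mul_distrib, prod_const, card_univ, Fintype.card_fin, sum_MS9]
        ring
    _ = _ := by
        simp only [← mul_sum]
        congr 1
        unfold QQ
        calc ∑ z, ∑ w, G z * G w * ∑ S, (1 / 9) ^ S.card * MS S z w =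
              ∑ z, ∑ w, ∑ S, (1 / 9) ^ S.card * (G z * G w * MS S z w) := by
              refine sum_congr rfl fun z _ => sum_congr rfl fun w _ => ?_
              rw [mul_sum]
              exact sum_congr rfl fun S _ => by ring
          _ = ∑ S, ∑ z, ∑ w, (1 / 9) ^ S.card * (G z * G w * MS S z w) :=
              (sum_congr rfl fun z _ => sum_comm).trans sum_comm
          _ = _ := by
              refine sum_congr rfl fun S _ => ?_
              rw [mul_sum]
              exact sum_congr rfl fun z _ => by rw [mul_sum]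

/-- the number of small sets -/
theorem card_small (n K : ℕ) : ((univ : Finset (Finset (Fin n))).filter fun S => S.card ≤ K).card ≤ (n + 1) ^ K := by
  classical
  have h1 : ((univ : Finset (Finset (Fin n))).filter fun S => S.card ≤ K) ⊆
      (univ : Finset (Fin K → Option (Fin n))).image (fun f => univ.filter (fun a => ∃ j, f j = some a)) := by
    intro S hS
    rw [mem_filter] at hS
    rw [mem_image]
    refine ⟨fun j => S.toList[(j : ℕ)]?, mem_univ _, ?_⟩
    ext a
    rw [mem_filter]
    constructor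
    · rintro ⟨-, j, hj⟩
      exact mem_toList.1 (List.mem_of_getElem? hj)
    · intro ha
      refine ⟨mem_univ _, ?_⟩
      obtain ⟨j, hj⟩ := List.mem_iff_getElem?.1 (mem_toList.2 ha)
      have hlt : j < S.toList.length := by
        by_contra hcon
        rw [List.getElem?_eq_none (by omega)] at hj
        exact absurd hj (by simp)
      rw [length_toList] at hlt
      exact ⟨⟨j, by omega⟩, hj⟩
  refine (card_le_card h1).trans (card_image_le.trans ?_)
  rw [card_univ, Fintype.card_fun, Fintype.card_option, Fintype.card_fin, Fintype.card_fin]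

theorem mom : S_MOM := by
  intro n Sg hSg h2 g K B W hB hW hg hS
  set m : ℝ := (Sg.card : ℝ) with hm
  set G : (Fin n → PP) → ℝ := fun z => g (fun i => (z i).1) (fun i => (z i).2) with hG
  set μ : ℝ := (∑ x, ∑ y, g x y) / 10 ^ n with hμ
  have hcard : ∑ _s ∈ Fintype.piFinset (fun _ : Fin n => Sg), (1 : ℝ) = m ^ n := by
    rw [sum_const, Fintype.card_piFinset_const]
    simp [hm]
  have h10 : (10 : ℝ) ^ n ≠ 0 := by positivity
  -- the variance
  have hvar : ∑ s ∈ Fintype.piFinset (fun _ : Fin n => Sg), ((∑ x, g x (fun i => s i (x i))) - μ) ^ 2 =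
      m ^ n * ∑ S ∈ univ.filter (fun S : Finset (Fin n) => S ≠ ∅), (1 / 9) ^ S.card * QQ G S := by
    have e1 : ∀ s ∈ Fintype.piFinset (fun _ : Fin n => Sg), ((∑ x, g x (fun i => s i (x i))) - μ) ^ 2 =
        (∑ x, g x (fun i => s i (x i))) ^ 2 - 2 * μ * (∑ x, g x (fun i => s i (x i))) + μ ^ 2 * 1 := fun s _ => by ring
    rw [sum_congr rfl e1, sum_add_distrib, sum_sub_distrib, ← mul_sum, ← mul_sum, hcard, first_moment h2,
      second_moment h2]
    have e2 : QQ G ∅ = μ ^ 2 := by
      unfold QQ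
      simp only [MS_empty]
      have e3 : ∑ z, G z = ∑ x, ∑ y, g x y := sum_pairs g
      have e4 : ∑ z, ∑ w, G z * G w * (1 / 100 : ℝ) ^ n = (∑ z, G z) * (∑ w, G w) * (1 / 100) ^ n := by
        rw [sum_mul_sum, sum_mul]
        exact sum_congr rfl fun z _ => by rw [sum_mul]
      rw [e4, e3, hμ]
      have e5 : (1 / 100 : ℝ) ^ n = 1 / ((10 : ℝ) ^ n * 10 ^ n) := by
        rw [← mul_pow, one_div_pow]
        norm_num
      rw [e5]
      field_simp
    rw [← hm, ← hG, ← hμ]
    have e6 : ∑ S, (1 / 9 : ℝ) ^ S.card * QQ G S = QQ G ∅ +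
        ∑ S ∈ univ.filter (fun S : Finset (Fin n) => S ≠ ∅), (1 / 9) ^ S.card * QQ G S := by
      rw [← sum_filter_add_sum_filter_not univ (fun S : Finset (Fin n) => S = ∅)]
      congr 1
      rw [filter_eq' univ ∅, if_pos (mem_univ _), sum_singleton, card_empty, pow_zero, one_mul]
    rw [e6, e2]
    ring
  rw [hvar]
  refine mul_le_mul_of_nonneg_left ?_ (by rw [hm]; positivity)
  -- small and large sets
  rw [← sum_filter_add_sum_filter_not _ (fun S : Finset (Fin n) => K < S.card)]
  refine add_le_add ?_ ?_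
  · have e1 : ∀ S ∈ (univ.filter (fun S : Finset (Fin n) => S ≠ ∅)).filter (fun S => K < S.card),
        (1 / 9 : ℝ) ^ S.card * QQ G S ≤ (1 / 9) ^ K * QQ G S := by
      intro S hS'
      refine mul_le_mul_of_nonneg_right ?_ (QQ_nonneg G S)
      exact pow_le_pow_of_le_one (by norm_num) (by norm_num) (mem_filter.1 hS').2.le
    refine (sum_le_sum e1).trans ?_
    rw [← mul_sum]
    have e2 : ∑ S ∈ (univ.filter (fun S : Finset (Fin n) => S ≠ ∅)).filter (fun S => K < S.card), QQ G S ≤
        ∑ z, G z ^ 2 :=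
      (sum_le_sum_of_subset_of_nonneg (subset_univ _) fun S _ _ => QQ_nonneg G S).trans (QQ_sum G)
    have e3 : ∑ z, G z ^ 2 ≤ B ^ 2 * 100 ^ n := by
      have e4 : ∀ z ∈ (univ : Finset (Fin n → PP)), G z ^ 2 ≤ B ^ 2 := fun z _ => sq_le_sq' (by
        have := (abs_le.1 (hg (fun i => (z i).1) (fun i => (z i).2))).1
        exact this) (abs_le.1 (hg (fun i => (z i).1) (fun i => (z i).2))).2
      refine (sum_le_sum e4).trans ?_
      rw [sum_const, card_univ, Fintype.card_fun, Fintype.card_prod, Fintype.card_fin, Fintype.card_fin, nsmul_eq_mul]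
      push_cast
      norm_num
      linarith
    calc (1 / 9 : ℝ) ^ K * ∑ S ∈ (univ.filter (fun S : Finset (Fin n) => S ≠ ∅)).filter (fun S => K < S.card), QQ G S
        ≤ (1 / 9) ^ K * (B ^ 2 * 100 ^ n) := mul_le_mul_of_nonneg_left (e2.trans e3) (by positivity)
      _ = _ := by
        rw [one_div_pow]
        ring
  · have e0 : ∀ S ∈ (univ.filter (fun S : Finset (Fin n) => S ≠ ∅)).filter (fun S => ¬ K < S.card),
        (1 / 9 : ℝ) ^ S.card * QQ G S ≤ 12 ^ K * (B * W) := by
      intro S hS'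
      rw [mem_filter, mem_filter] at hS'
      have hle : S.card ≤ K := by omega
      have hne : S.Nonempty := nonempty_iff_ne_empty.2 hS'.1.2
      have hSn : S.card ≤ n := by
        have := card_le_univ S
        rwa [Fintype.card_fin] at this
      have e1 : QQ G S = ∑ w, G w * ((1 / 100) ^ (n - S.card) * ∑ z, G z * ∏ i ∈ S, RR (z i) (w i)) := by
        unfold QQ
        rw [sum_comm]
        refine sum_congr rfl fun w _ => ?_
        rw [mul_sum, mul_sum]
        refine sum_congr rfl fun z _ => ?_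
        rw [MS_eq]
        ring
      have e2 : ∀ w : Fin n → PP, |∑ z, G z * ∏ i ∈ S, RR (z i) (w i)| ≤ W := by
        intro w
        have e3 := hS S hne hle (fun i => (w i).1) (fun i => (w i).2)
        rw [← sum_pairs (fun x y => g x y * ∏ i ∈ S, (aa (x i) (w i).1 * aa (y i) (w i).2))] at e3
        exact e3
      have e4 : QQ G S ≤ 100 ^ S.card * (B * W) := by
        rw [e1]
        have e5 : ∀ w ∈ (univ : Finset (Fin n → PP)),
            G w * ((1 / 100) ^ (n - S.card) * ∑ z, G z * ∏ i ∈ S, RR (z i) (w i)) ≤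
            (1 / 100) ^ (n - S.card) * (B * W) := by
          intro w _
          refine (le_abs_self _).trans ?_
          rw [abs_mul, abs_mul, abs_of_nonneg (by positivity : (0 : ℝ) ≤ (1 / 100) ^ (n - S.card))]
          have e6 : |G w| ≤ B := hg _ _
          calc |G w| * ((1 / 100) ^ (n - S.card) * |∑ z, G z * ∏ i ∈ S, RR (z i) (w i)|)
              = (1 / 100) ^ (n - S.card) * (|G w| * |∑ z, G z * ∏ i ∈ S, RR (z i) (w i)|) := by ring
            _ ≤ _ := mul_le_mul_of_nonneg_left (mul_le_mul e6 (e2 w) (abs_nonneg _) hB) (by positivity)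
        refine (sum_le_sum e5).trans ?_
        rw [sum_const, card_univ, Fintype.card_fun, Fintype.card_prod, Fintype.card_fin, Fintype.card_fin,
          nsmul_eq_mul]
        have e7 : (((10 * 10) ^ n : ℕ) : ℝ) * ((1 / 100) ^ (n - S.card) * (B * W)) = 100 ^ S.card * (B * W) := by
          have e8 : (100 : ℝ) ^ n = 100 ^ (n - S.card) * 100 ^ S.card := by
            rw [← pow_add]
            congr 1
            omega
          push_cast
          rw [e8, one_div_pow]
          field_simp
        exact e7.le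
      have hBW : 0 ≤ B * W := mul_nonneg hB hW
      calc (1 / 9 : ℝ) ^ S.card * QQ G S ≤ (1 / 9) ^ S.card * (100 ^ S.card * (B * W)) :=
            mul_le_mul_of_nonneg_left e4 (by positivity)
        _ = (100 / 9) ^ S.card * (B * W) := by
            rw [← mul_assoc, ← mul_pow]
            norm_num
        _ ≤ 12 ^ S.card * (B * W) := by
            refine mul_le_mul_of_nonneg_right ?_ hBW
            exact pow_le_pow_left₀ (by norm_num) (by norm_num) _
        _ ≤ 12 ^ K * (B * W) := by
            refine mul_le_mul_of_nonneg_right ?_ hBW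
            exact pow_le_pow_right₀ (by norm_num) hle
    refine (sum_le_sum e0).trans ?_
    rw [sum_const, nsmul_eq_mul]
    have e1 : ((univ.filter (fun S : Finset (Fin n) => S ≠ ∅)).filter (fun S => ¬ K < S.card)).card ≤ (n + 1) ^ K := by
      refine le_trans (card_le_card ?_) (card_small n K)
      intro S hS'
      rw [mem_filter, mem_filter] at hS'
      rw [mem_filter]
      exact ⟨mem_univ _, by omega⟩
    have e2 : (((univ.filter (fun S : Finset (Fin n) => S ≠ ∅)).filter (fun S => ¬ K < S.card)).card : ℝ) ≤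
        ((n : ℝ) + 1) ^ K := by exact_mod_cast e1
    calc (((univ.filter (fun S : Finset (Fin n) => S ≠ ∅)).filter (fun S => ¬ K < S.card)).card : ℝ) *
          (12 ^ K * (B * W)) ≤ ((n : ℝ) + 1) ^ K * (12 ^ K * (B * W)) :=
          mul_le_mul_of_nonneg_right e2 (mul_nonneg (by positivity) (mul_nonneg hB hW))
      _ = _ := by
        rw [mul_pow]
        ring

end Pool.Agent.P8H29.RR
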